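import Mathlib
import Pool.Agent.Helper35.AG.Basic
import Pool.Agent.Helper36.AD.Chain

/-!
ADD: the increments of the dyadic entropy of a measure invariant under doubling are nonincreasing.
-/

set_option autoImplicit false

open Finset MeasureTheory
open Helper35.AG (Tor idx ent conv)
open Helper36.AD (gg)

namespace Helper35.ADD

theorem idx_half (j : ℕ) (x : Tor) : idx j x = idx (j + 1) x / 2 := by
  obtain ⟨u, h0, h1, -, h⟩ := Helper35.AG.exists_rep x
  rw [h j, h (j + 1)]
  have e : (2 : ℝ) ^ j * u = 2 ^ (j + 1) * u / (2 : ℕ) := by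
    rw [pow_succ]
    push_cast
    ring
  rw [e, Nat.floor_div_natCast]

theorem idx_double (j : ℕ) (x : Tor) : idx j ((2 : ℕ) • x) = idx (j + 1) x % 2 ^ j := by
  obtain ⟨u, h0, h1, rfl, h⟩ := Helper35.AG.exists_rep x
  rw [h (j + 1)]
  have h2 : (0 : ℝ) < 2 ^ j := by positivity
  have e2 : (2 : ℕ) • ((u : ℝ) : Tor) = ((2 * u : ℝ) : Tor) := by
    rw [two_nsmul, ← AddCircle.coe_add]
    congr 1
    ring
  have hz : ((1 : ℝ) : Tor) = 0 := AddCircle.coe_period 1
  rcases lt_or_ge (2 * u) 1 with h3 | h3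
  · rw [e2, Helper35.AG.idx_coe j (by linarith) h3, pow_succ, mul_assoc]
    rw [Nat.mod_eq_of_lt]
    rw [Nat.floor_lt (by positivity)]
    push_cast
    nlinarith
  · have e3 : ((2 * u : ℝ) : Tor) = ((2 * u - 1 : ℝ) : Tor) := by
      rw [AddCircle.coe_sub, hz, sub_zero]
    rw [e2, e3, Helper35.AG.idx_coe j (by linarith) (by linarith)]
    have e4 : (2 : ℝ) ^ (j + 1) * u = 2 ^ j * (2 * u - 1) + (2 ^ j : ℕ) := by
      rw [pow_succ]
      push_cast
      ring
    rw [e4, Nat.floor_add_natCast (by nlinarith), Nat.add_mod_right, Nat.mod_eq_of_lt]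
    rw [Nat.floor_lt (by nlinarith)]
    push_cast
    nlinarith

theorem mod_iff {j r : ℕ} (hr : r < 2 ^ j) {m : ℕ} (hm : m < 2 ^ (j + 1)) :
    m % 2 ^ j = r ↔ m = r ∨ m = r + 2 ^ j := by
  have e : 2 ^ (j + 1) = 2 ^ j * 2 := pow_succ 2 j
  obtain ⟨N, hN⟩ : ∃ N, N = 2 ^ j := ⟨_, rfl⟩
  rw [e] at hm
  rw [← hN] at hm hr ⊢
  constructor
  · intro h
    rcases lt_or_ge m N with h3 | h3
    · left
      rwa [Nat.mod_eq_of_lt h3] at h
    · right
      rw [Nat.mod_eq_sub_mod h3, Nat.mod_eq_of_lt (by omega)] at h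
      omega
  · rintro (h | h)
    · rw [h, Nat.mod_eq_of_lt hr]
    · rw [h, Nat.add_mod_right, Nat.mod_eq_of_lt hr]

variable {μ : Measure Tor} [IsProbabilityMeasure μ]

theorem split_high (j r : ℕ) : μ.real {x | idx j x = r} =
    μ.real {x | idx (j + 1) x = 2 * r} + μ.real {x | idx (j + 1) x = 2 * r + 1} := by
  rw [← measureReal_union _ (Helper35.AG.measurableSet_idx _ _)]
  · congr 1
    ext x
    simp only [Set.mem_ofPred_eq, Set.mem_union]
    rw [idx_half j x]
    omega
  · rw [Set.disjoint_left]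
    intro x hx hx'
    simp only [Set.mem_ofPred_eq] at hx hx'
    omega

theorem split_low (h2 : MeasurePreserving (fun x : Tor => (2 : ℕ) • x) μ μ) {j r : ℕ}
    (hr : r < 2 ^ j) : μ.real {x | idx j x = r} =
    μ.real {x | idx (j + 1) x = r} + μ.real {x | idx (j + 1) x = r + 2 ^ j} := by
  have h3 : 0 < 2 ^ j := by positivity
  rw [← measureReal_union _ (Helper35.AG.measurableSet_idx _ _)]
  · rw [measureReal_def, measureReal_def,
      ← h2.measure_preimage (Helper35.AG.measurableSet_idx j r).nullMeasurableSet]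
    congr 2
    ext x
    simp only [Set.mem_ofPred_eq, Set.mem_union, Set.mem_preimage]
    rw [idx_double j x]
    exact mod_iff hr (Helper35.AG.idx_lt _ _)
  · rw [Set.disjoint_left]
    intro x hx hx'
    simp only [Set.mem_ofPred_eq] at hx hx'
    omega

theorem ent_step (h2 : MeasurePreserving (fun x : Tor => (2 : ℕ) • x) μ μ) (j : ℕ) :
    ent μ (j + 1) - ent μ j = ∑ r ∈ range (2 ^ j),
      gg (μ.real {x | idx (j + 1) x = r}) (μ.real {x | idx (j + 1) x = r + 2 ^ j}) := by
  unfold Helper35.AG.ent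
  rw [pow_succ, mul_two, Finset.sum_range_add, ← Finset.sum_add_distrib,
    ← Finset.sum_sub_distrib]
  refine Finset.sum_congr rfl fun r hr => ?_
  rw [split_low h2 (Finset.mem_range.1 hr), add_comm (2 ^ j) r]
  rfl

/-- the increments decrease, one step -/
theorem ent_anti_succ (h2 : MeasurePreserving (fun x : Tor => (2 : ℕ) • x) μ μ) (j : ℕ) :
    ent μ (j + 1 + 1) - ent μ (j + 1) ≤ ent μ (j + 1) - ent μ j := by
  rw [ent_step h2 (j + 1), ent_step h2 j]
  have e : ∀ F : ℕ → ℝ, ∑ r ∈ range (2 ^ (j + 1)), F r =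
      ∑ r ∈ range (2 ^ j), (F (2 * r) + F (2 * r + 1)) := by
    intro F
    rw [pow_succ, mul_comm]
    generalize 2 ^ j = n
    induction n with
    | zero => simp
    | succ n ih =>
      rw [Nat.mul_succ, Finset.sum_range_succ, Finset.sum_range_succ, ih,
        Finset.sum_range_succ, add_assoc]
  rw [e]
  refine Finset.sum_le_sum fun r _ => ?_
  refine (Helper36.AD.gg_add measureReal_nonneg measureReal_nonneg measureReal_nonneg
    measureReal_nonneg).trans (le_of_eq ?_)
  rw [split_high (μ := μ) (j + 1) r, split_high (μ := μ) (j + 1) (r + 2 ^ j)]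
  have e1 : 2 * r + 2 ^ (j + 1) = 2 * (r + 2 ^ j) := by
    rw [pow_succ]
    ring
  have e2 : 2 * r + 1 + 2 ^ (j + 1) = 2 * (r + 2 ^ j) + 1 := by
    rw [pow_succ]
    ring
  rw [e1, e2]

/-- P3b. The increments of the entropy are nonincreasing. -/
theorem ent_anti (h2 : MeasurePreserving (fun x : Tor => (2 : ℕ) • x) μ μ) {i j : ℕ}
    (hij : i ≤ j) : ent μ (j + 1) - ent μ j ≤ ent μ (i + 1) - ent μ i := by
  induction j, hij using Nat.le_induction with
  | base => exact le_rfl
  | succ j _ ih => exact (ent_anti_succ h2 j).trans ih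

end Helper35.ADD
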