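import Pool.Agent.Helper35.AG.PartC
import Pool.Agent.Helper28.ER.Gibbs
import Pool.Agent.Helper17.TranslM

/-!
(E') points in the closure of a set of traces whose measure dominates a multiple of Lebesgue
measure: some trace of the set has measure at least half of it on every dyadic cell
-/

set_option autoImplicit false

open MeasureTheory Filter Topology Finset Helper17.FU Helper17.FUGroup
open Helper91.TTT hiding Tor
open Helper35.AG (Tor idx idx_coe exists_rep exists_measure)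

namespace Helper28.ADD

/-- the open dyadic cell -/
def cell (K i : ℕ) : Set Tor :=
  (fun u : ℝ => (u : Tor)) '' Set.Ioo ((i : ℝ) / 2 ^ K) (((i : ℝ) + 1) / 2 ^ K)

theorem isOpen_cell (K i : ℕ) : IsOpen (cell K i) :=
  QuotientAddGroup.isOpenMap_coe _ isOpen_Ioo

theorem cell_sub {K i : ℕ} (hi : i < 2 ^ K) : cell K i ⊆ {x | idx K x = i} := by
  have h2 : (0 : ℝ) < 2 ^ K := by positivity
  rintro _ ⟨u, ⟨h3, h4⟩, rfl⟩
  rw [div_lt_iff₀ h2] at h3
  rw [lt_div_iff₀ h2] at h4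
  have hi' : ((i : ℝ) + 1) ≤ 2 ^ K := by exact_mod_cast hi
  have h5 : 0 ≤ u := by
    by_contra hn
    rw [not_le] at hn
    have : u * 2 ^ K < 0 := mul_neg_of_neg_of_pos hn h2
    have : (0 : ℝ) ≤ i := Nat.cast_nonneg i
    linarith
  have h6 : u < 1 := by
    by_contra hn
    rw [not_lt] at hn
    have : 1 * (2 : ℝ) ^ K ≤ u * 2 ^ K := mul_le_mul_of_nonneg_right hn h2.le
    linarith
  rw [Set.mem_ofPred_eq, idx_coe K h5 h6, Nat.floor_eq_iff (by positivity)]
  constructor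
  · linarith
  · linarith

theorem sub_cell (K i : ℕ) : {x | idx K x = i} ⊆ cell K i ∪ {(((i : ℝ) / 2 ^ K : ℝ) : Tor)} := by
  have h2 : (0 : ℝ) < 2 ^ K := by positivity
  intro x hx
  obtain ⟨u, h0, h1, rfl, h⟩ := exists_rep x
  rw [Set.mem_ofPred_eq, h K, Nat.floor_eq_iff (by positivity)] at hx
  by_cases he : u = (i : ℝ) / 2 ^ K
  · right
    rw [Set.mem_singleton_iff, he]
  · left
    refine ⟨u, ⟨?_, ?_⟩, rfl⟩
    · refine lt_of_le_of_ne ?_ (Ne.symm he)
      rw [div_le_iff₀ h2]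
      linarith [hx.1]
    · rw [lt_div_iff₀ h2]
      linarith [hx.2]

theorem vol_cell' {K i : ℕ} (hi : i < 2 ^ K) :
    ENNReal.ofReal (1 / 2 ^ K) ≤ (volume : Measure Tor) (cell K i) := by
  have h1 := Helper66.ER.vol_cell K i hi
  have h2 : (volume : Measure Tor) {x | idx K x = i} ≤ (volume : Measure Tor) (cell K i) := by
    refine (measure_mono (sub_cell K i)).trans ((measure_union_le _ _).trans ?_)
    have h0 : (volume : Measure Tor) {(((i : ℝ) / 2 ^ K : ℝ) : Tor)} = 0 := by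
      rw [← Metric.closedBall_zero, AddCircle.volume_closedBall]
      simp
    rw [h0, add_zero]
  refine le_trans ?_ h2
  rw [← h1, measureReal_def, ENNReal.ofReal_toReal (measure_ne_top _ _)]

variable {s2 s3 t : Equiv.Perm ℚ}

/-- a point of the closure of a set of traces whose measure dominates a multiple of Lebesgue
measure -/
theorem near (h2 : ∀ x : ℚ, s2 x = 2 * x) (h3 : ∀ x : ℚ, s3 x = 3 * x)
    (ht : ∀ x : ℚ, t x = x + 1) {τ : GG s2 s3 t} (hτ : (τ : Equiv.Perm ℚ) = t)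
    {S : Set (GG s2 s3 t → ℂ)} (hS : S ⊆ TR (GG s2 s3 t)) {g : GG s2 s3 t → ℂ}
    (hg : g ∈ closure S) {ρ : Measure Tor} [IsProbabilityMeasure ρ]
    (hρ : ∀ n : ℤ, ∫ x, (fourier n x : ℂ) ∂ρ = g (τ ^ n)) {α : ℝ} (hα : 0 < α)
    (hle : ENNReal.ofReal α • (volume : Measure Tor) ≤ ρ) (K : ℕ) :
    ∃ φ ∈ S, ∃ μ : Measure Tor, IsProbabilityMeasure μ ∧
      (∀ n : ℤ, ∫ x, (fourier n x : ℂ) ∂μ = φ (τ ^ n)) ∧
        ∀ i < 2 ^ K, α / 2 / 2 ^ K ≤ μ.real {x | idx K x = i} := by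
  classical
  obtain ⟨u, huS, hug⟩ := mem_closure_iff_ultrafilter.1 hg
  have hex : ∀ φ : GG s2 s3 t → ℂ, ∃ R : ProbabilityMeasure Tor, φ ∈ S →
      ∀ n : ℤ, ∫ x, (fourier n x : ℂ) ∂(R : Measure Tor) = φ (τ ^ n) := by
    intro φ
    by_cases hφ : φ ∈ S
    · obtain ⟨μ, hμp, hμ, -⟩ := exists_measure h2 h3 ht hτ (hS hφ)
      exact ⟨⟨μ, hμp⟩, fun _ => hμ⟩
    · exact ⟨⟨ρ, inferInstance⟩, fun h => absurd h hφ⟩
  choose R hR using hex
  obtain ⟨ρ0, -, hlim⟩ := isCompact_iff_ultrafilter_le_nhds.1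
    (isCompact_univ (X := ProbabilityMeasure Tor)) (u.map R) (by
      rw [le_principal_iff]
      exact Filter.univ_mem)
  have hlim' : Tendsto R u (𝓝 ρ0) := hlim
  have heq : (ρ0 : Measure Tor) = ρ := by
    apply Helper17.TranslM.eq_of_fourier
    intro n
    rw [hρ]
    have a1 := Helper75.AG.tendsto_fourier hlim' n
    have a2 : Tendsto (fun φ : GG s2 s3 t → ℂ => φ (τ ^ n)) u (𝓝 (g (τ ^ n))) :=
      ((continuous_apply (τ ^ n)).tendsto g).mono_left hug
    have a3 : ∀ᶠ φ in (u : Filter (GG s2 s3 t → ℂ)),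
        ∫ x, (fourier n x : ℂ) ∂(R φ : Measure Tor) = φ (τ ^ n) :=
      Filter.mem_of_superset huS fun φ hφ => hR φ hφ n
    exact tendsto_nhds_unique (a1.congr' a3) a2
  have h2K : (0 : ℝ) < 2 ^ K := by positivity
  have hcell : ∀ i ∈ Finset.range (2 ^ K), ∀ᶠ φ in (u : Filter (GG s2 s3 t → ℂ)),
      ENNReal.ofReal (α / 2 / 2 ^ K) < (R φ : Measure Tor) (cell K i) := by
    intro i hi
    rw [Finset.mem_range] at hi
    have b1 := ProbabilityMeasure.le_liminf_measure_open_of_tendsto hlim' (isOpen_cell K i)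
    have b2 : ENNReal.ofReal (α / 2 / 2 ^ K) < (ρ0 : Measure Tor) (cell K i) := by
      rw [heq]
      refine lt_of_lt_of_le ?_ (hle (cell K i))
      rw [Measure.smul_apply, smul_eq_mul]
      refine lt_of_lt_of_le ?_ (mul_le_mul_right (vol_cell' hi) _)
      rw [← ENNReal.ofReal_mul hα.le, ENNReal.ofReal_lt_ofReal_iff (by positivity)]
      rw [div_div, mul_one_div]
      exact div_lt_div_of_pos_left hα h2K (by linarith)
    exact Filter.eventually_lt_of_lt_liminf (b2.trans_le b1)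
  have hall : ∀ᶠ φ in (u : Filter (GG s2 s3 t → ℂ)), ∀ i ∈ Finset.range (2 ^ K),
      ENNReal.ofReal (α / 2 / 2 ^ K) < (R φ : Measure Tor) (cell K i) :=
    (Filter.eventually_all_finset _).2 hcell
  obtain ⟨φ, hφ, hφS⟩ := (hall.and huS).exists
  refine ⟨φ, hφS, R φ, inferInstance, hR φ hφS, fun i hi => ?_⟩
  have c1 := (hφ i (Finset.mem_range.2 hi)).le.trans (measure_mono (cell_sub hi))
  rw [measureReal_def]
  exact (ENNReal.ofReal_le_iff_le_toReal (measure_ne_top _ _)).1 c1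

end Helper28.ADD
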