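import Mathlib
import Pool.Agent.Helper35.ADD.Defs
import Pool.Agent.Helper28.ADD.Anti

/-!
ADD: the low digits of an invariant measure.
-/

set_option autoImplicit false

open Finset MeasureTheory
open Helper35.AG (Tor idx ent conv)

namespace Helper35.ADD

theorem low_digits {μ : Measure Tor}
    (h2 : MeasurePreserving (fun x : Tor => (2 : ℕ) • x) μ μ) (j n r : ℕ) :
    μ.real {x | idx (j + n) x % 2 ^ j = r} = μ.real {x | idx j x = r} := by
  induction n with
  | zero =>
    congr 1
    ext x
    simp only [Set.mem_ofPred_eq]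
    rw [add_zero, Nat.mod_eq_of_lt (Helper35.AG.idx_lt j x)]
  | succ n ih =>
    rw [← ih, measureReal_def, measureReal_def]
    have hm : MeasurableSet {x : Tor | idx (j + n) x % 2 ^ j = r} :=
      (Helper35.AG.measurable_idx (j + n))
        (MeasurableSet.of_discrete (s := {m : ℕ | m % 2 ^ j = r}))
    rw [← h2.measure_preimage hm.nullMeasurableSet]
    congr 2
    ext x
    simp only [Set.mem_ofPred_eq, Set.mem_preimage]
    rw [idx_double, Nat.mod_mod_of_dvd _ (pow_dvd_pow 2 (Nat.le_add_right j n)), add_assoc]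

/-- P3a. -/
theorem md_inv {μ : Measure Tor} [IsProbabilityMeasure μ]
    (h2 : MeasurePreserving (fun x : Tor => (2 : ℕ) • x) μ μ) {j K : ℕ} (hj : j ≤ K) {r : ℕ}
    (_hr : r < 2 ^ j) : md K (fun i => μ.real {x | idx K x = i}) j r = μ.real {x | idx j x = r} := by
  obtain ⟨n, rfl⟩ := Nat.exists_eq_add_of_le hj
  rw [← low_digits h2 j n r]
  unfold md
  rw [← measureReal_biUnion_finset]
  · congr 1
    ext x
    simp only [Set.mem_iUnion, Set.mem_ofPred_eq, Finset.mem_filter, Finset.mem_range,
      exists_prop]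
    constructor
    · rintro ⟨i, ⟨_, h1⟩, rfl⟩
      exact h1
    · intro h1
      exact ⟨idx (j + n) x, ⟨Helper35.AG.idx_lt _ _, h1⟩, rfl⟩
  · intro a _ b _ hab
    refine Set.disjoint_left.2 fun x hx hx' => hab ?_
    exact hx.symm.trans hx'
  · exact fun i _ => Helper35.AG.measurableSet_idx _ i

end Helper35.ADD
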